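import Pool.Agent.H37.CNQ.Stmts

/-!
# Board `cnq`, row QU2 (helper56): the conductor of the quotient cover

`C` normal of order prime to `p`, `E` its fixed field.  `Q` = the place of `E` below `P`, `e = |C ∩ I|`
the ramification index.  The inertia group of `Q` is the image of `I` (transitivity, `TRV`), the wild one the
image of `W`, `e Q.b = P.b` on `W`; then `CON`, `CNV`.
-/

set_option autoImplicit false

namespace Pool.CND

open Finset

/-- the place `z ↦ P.ord (σ z)` -/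
private noncomputable def qu2Pl {k L : Type} [Field k] [Field L] [Algebra k L] (P : Place k L)
    (σ : L ≃ₐ[k] L) : Place k L where
  ord z := P.ord (σ z)
  ord_mul x y hx hy := by
    rw [map_mul]
    exact P.ord_mul _ _ (by simpa using hx) (by simpa using hy)
  ord_add x y hx hy hxy := by
    rw [map_add]
    refine P.ord_add _ _ (by simpa using hx) (by simpa using hy) ?_
    rw [← map_add]
    exact (map_ne_zero_iff _ σ.injective).2 hxy
  ord_surj := by
    obtain ⟨x, hx, h1⟩ := P.ord_surj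
    exact ⟨σ.symm x, by simpa using hx, by rw [AlgEquiv.apply_symm_apply]; exact h1⟩
  ord_const c hc := by
    rw [AlgEquiv.commutes]
    exact P.ord_const c hc
  residue x hx h0 := by
    obtain ⟨c, hc⟩ := P.residue (σ x) (by simpa using hx) h0
    refine ⟨c, ?_⟩
    rcases hc with hc | hc
    · left
      apply σ.injective
      rw [hc, AlgEquiv.commutes]
    · right
      rw [map_sub, AlgEquiv.commutes]
      exact hc

/-- the elements of `ram 0` are those which fix the place -/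
private theorem qu2_ram0 {k L G : Type} [Field k] [Field L] [Algebra k L] [Group G] (P : Place k L)
    (ρ : G →* (L ≃ₐ[k] L)) (g : G) : g ∈ ram P ρ 0 ↔ Fixes P (ρ g) := by
  constructor
  · intro h
    exact h.1
  · intro h
    refine ⟨h, fun u hu0 hu1 => ?_⟩
    have h1 : P.Ge (ρ g u - u) 1 :=
      P.ge_sub (h.ge (Or.inr (by rw [hu1]))) (Or.inr (by rw [hu1]))
    rcases h1 with h1 | h1
    · exact Or.inl (sub_eq_zero.1 h1)
    · exact Or.inr (by simpa using h1)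

/-- the order of the image of a subgroup in a quotient -/
private theorem qu2_card {G : Type} [Group G] (C I : Subgroup G) [C.Normal] :
    Nat.card I = Nat.card (C ⊓ I : Subgroup G) * Nat.card (I.map (QuotientGroup.mk' C)) := by
  let f : I →* G ⧸ C := (QuotientGroup.mk' C).comp I.subtype
  have h1 : f.range = I.map (QuotientGroup.mk' C) := by
    rw [MonoidHom.range_comp, Subgroup.range_subtype]
  have h2 : f.ker = C.subgroupOf I := by
    ext x
    rw [MonoidHom.mem_ker, Subgroup.mem_subgroupOf]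
    exact QuotientGroup.eq_one_iff (x : G)
  have h3 : Nat.card f.ker = Nat.card (C ⊓ I : Subgroup G) := by
    rw [h2, ← Subgroup.inf_subgroupOf_right]
    exact Nat.card_congr (Subgroup.subgroupOfEquivOfLe (inf_le_right : C ⊓ I ≤ I)).toEquiv
  rw [← f.ker.card_mul_index, h3, Subgroup.index_ker, h1]

/-- sums over sets in bijection -/
private theorem qu2_sm {G H : Type} [Fintype G] [Fintype H] (b : G → ℤ) (b' : H → ℤ) (S : Set G)
    (T : Set H) (f : G → H) (e : ℤ) (h1 : ∀ g ∈ S, f g ∈ T)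
    (h2 : ∀ g ∈ S, ∀ g' ∈ S, f g = f g' → g = g') (h3 : ∀ γ ∈ T, ∃ g ∈ S, f g = γ)
    (h4 : ∀ g ∈ S, e * b' (f g) = b g) : e * sm b' T = sm b S := by
  unfold sm
  rw [Finset.mul_sum]
  symm
  refine Finset.sum_bij (fun g _ => f g) ?_ ?_ ?_ ?_
  · intro g hg
    simp only [Finset.mem_filter, Finset.mem_univ, true_and] at hg ⊢
    exact h1 g hg
  · intro g hg g' hg' h
    simp only [Finset.mem_filter, Finset.mem_univ, true_and] at hg hg'
    exact h2 g hg g' hg' h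
  · intro γ hγ
    simp only [Finset.mem_filter, Finset.mem_univ, true_and] at hγ
    obtain ⟨g, hg, hgγ⟩ := h3 γ hγ
    refine ⟨g, ?_, hgγ⟩
    simp only [Finset.mem_filter, Finset.mem_univ, true_and]
    exact hg
  · intro g hg
    simp only [Finset.mem_filter, Finset.mem_univ, true_and] at hg
    exact (h4 g hg).symm

theorem qu2_thm (hRSP : S_RSP) (hTOT : S_TOT) (hRMX : S_RMX) (hLO2 : S_LO2) (hINJ : S_INJ)
    (hTRV : S_TRV) (hRAM : S_RAM) (hSUB : S_SUB) (hWLD : S_WLD) (hART : S_ART) (hUMW : S_UMW)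
    (hCON : S_CON) (hCNV : S_CNV) : S_QU2 := by
  classical
  intro p k L G _ _ _ _ _ ρ t C _ P c E ρ' hp hck hpC hcov hE hρ' hcon hc0
  haveI : Fintype G := Fintype.ofFinite G
  haveI : Fintype (G ⧸ C) := Fintype.ofFinite _
  have hρ := hcov.inj
  have htG : ∀ g : G, ρ g t = t := (hcov.fixed t).2 (IntermediateField.mem_adjoin_simple_self k t)
  have htE : t ∈ E := (hE t).2 fun c _ => htG c
  have htr : Transcendental k (⟨t, htE⟩ : E) := by
    intro h
    exact hcov.trans (h.algebraMap (A := L))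
  obtain ⟨e, Q, he1, hQ⟩ := hRSP k E L E.val P ⟨t, htE⟩ htr
  have hQ' : ∀ z : E, z ≠ 0 → (e : ℤ) * Q.ord z = P.ord (z : L) := hQ
  refine ⟨Q, e, he1, hQ', ?_⟩
  have he0 : (0 : ℤ) < e := by exact_mod_cast he1
  have hL0 : ∀ z : E, z ≠ 0 → (z : L) ≠ 0 := fun z hz h => hz (Subtype.ext h)
  have hρ0 : ∀ (γ : G ⧸ C) (z : E), z ≠ 0 → ρ' γ z ≠ 0 := fun γ z hz =>
    (map_ne_zero_iff _ (ρ' γ).injective).2 hz
  -- the groups at `P`
  obtain ⟨W, I, hW, hI, hWI, ⟨n, hWn⟩, m, hm, hIm⟩ := hWLD p k L G P ρ hp hck hρ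
  have hnorm : ∀ g ∈ I, ∀ w ∈ W, g * w * g⁻¹ ∈ W := by
    obtain ⟨W1, I1, hW1, hI1, -, h1⟩ := hSUB k L G P ρ
    have e1 : W1 = W := SetLike.coe_injective (hW1.trans hW.symm)
    have e2 : I1 = I := SetLike.coe_injective (hI1.trans hI.symm)
    rw [e1, e2] at h1
    exact h1
  have hfixI : ∀ g : G, g ∈ I ↔ Fixes P (ρ g) := by
    intro g
    rw [← SetLike.mem_coe, hI]
    exact qu2_ram0 P ρ g
  have hJ : ∀ g, g ∈ C ⊓ I ↔ g ∈ C ∧ Fixes P (ρ g) := by
    intro g
    rw [Subgroup.mem_inf, hfixI]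
  -- `e = |C ∩ I|`
  have heJ : e = Nat.card (C ⊓ I : Subgroup G) := by
    obtain ⟨w, hw0, hwC, hword⟩ := hRMX k L G P ρ C (C ⊓ I) hJ
    have h1 : (e : ℤ) ∣ Nat.card (C ⊓ I : Subgroup G) := by
      have h := hQ' ⟨w, (hE w).2 hwC⟩ (fun h => hw0 (congrArg Subtype.val h))
      rw [show ((⟨w, (hE w).2 hwC⟩ : E) : L) = w from rfl, hword] at h
      exact ⟨_, h.symm⟩
    have h2 : (Nat.card (C ⊓ I : Subgroup G) : ℤ) ∣ e := by
      obtain ⟨z, hz0, hz1⟩ := Q.ord_surj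
      have h3 := hTOT k L G P ρ (C ⊓ I) hρ (fun n hn => ((hJ n).1 hn).2) (z : L) (hL0 z hz0)
        (fun n hn => (hE z).1 z.2 n ((hJ n).1 hn).1)
      rw [← hQ' z hz0, hz1, mul_one] at h3
      exact h3
    exact Nat.dvd_antisymm (by exact_mod_cast h1) (by exact_mod_cast h2)
  have hpe : ¬ p ∣ e := by
    intro h
    apply hpC
    rw [heJ] at h
    exact h.trans (Subgroup.card_dvd_of_le inf_le_left)
  -- `ρ'` is injective
  have hρ'inj : Function.Injective ρ' := by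
    rw [injective_iff_map_eq_one]
    intro γ
    obtain ⟨g, rfl⟩ := QuotientGroup.mk_surjective γ
    intro h
    refine (QuotientGroup.eq_one_iff g).2 (hART k L G ρ C g hρ fun x hx => ?_)
    have h3 := hρ' g ⟨x, (hE x).2 hx⟩
    rw [h, AlgEquiv.one_apply] at h3
    exact h3.symm
  -- the elements fixing `Q`
  have hQI1 : ∀ g ∈ I, Fixes Q (ρ' (g : G ⧸ C)) := by
    intro g hg z hz
    have h4 := hQ' _ (hρ0 g z hz)
    rw [hρ', (hfixI g).1 hg _ (hL0 z hz), ← hQ' z hz] at h4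
    exact mul_left_cancel₀ he0.ne' h4
  have hQI2 : ∀ g : G, Fixes Q (ρ' (g : G ⧸ C)) → ∃ i ∈ I, (i : G ⧸ C) = g := by
    intro g hg
    obtain ⟨a, haC, ha⟩ := hTRV k L G ρ C P (qu2Pl P (ρ g)) (by
      intro z hz hzC hPz
      have hZ0 : (⟨z, (hE z).2 hzC⟩ : E) ≠ 0 := fun h => hz (congrArg Subtype.val h)
      have h3 := hg _ hZ0
      have h4 := hQ' _ (hρ0 g _ hZ0)
      have h5 := hQ' _ hZ0
      rw [hρ', h3, h5] at h4
      show P.ord (ρ g z) = 0
      exact h4.symm.trans hPz)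
    refine ⟨g * a⁻¹, ?_, ?_⟩
    · rw [hfixI]
      intro z hz
      have h3 : P.ord (ρ g (ρ a⁻¹ z)) = P.ord (ρ a (ρ a⁻¹ z)) := ha (ρ a⁻¹ z) (by simpa using hz)
      rw [← AlgEquiv.mul_apply, ← AlgEquiv.mul_apply, ← map_mul, ← map_mul, mul_inv_cancel,
        map_one, AlgEquiv.one_apply] at h3
      exact h3
    · rw [QuotientGroup.eq]
      simpa using haC
  -- `C ∩ W = 1`
  have hCW : ∀ g ∈ W, g ∈ C → g = 1 := by
    intro g hgW hgC
    have h3 : orderOf g ∣ p ^ n := by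
      rw [← hWn]
      exact Subgroup.orderOf_dvd_natCard _ hgW
    have h4 : orderOf g ∣ Nat.card C := Subgroup.orderOf_dvd_natCard _ hgC
    have h5 : Nat.Coprime (p ^ n) (Nat.card C) :=
      Nat.Coprime.pow_left _ ((Nat.Prime.coprime_iff_not_dvd hp).2 hpC)
    exact orderOf_eq_one_iff.1 (Nat.eq_one_of_dvd_coprimes h5 h3 h4)
  have hne1 : ∀ g ∈ W, g ≠ 1 → ((g : G ⧸ C)) ≠ 1 := fun g hg h1 h =>
    h1 (hCW g hg ((QuotientGroup.eq_one_iff g).1 h))
  -- the values of `b`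
  have hpos : ∀ g ∈ W, g ≠ 1 → 1 ≤ P.b (ρ g) := (hUMW k L G P ρ W hρ hW).pos
  have hb : ∀ g ∈ W, g ≠ 1 → (e : ℤ) * Q.b (ρ' (g : G ⧸ C)) = P.b (ρ g) := by
    intro g hg h1
    have hfix : Fixes P (ρ g) := (hfixI g).1 (hWI hg)
    have hne : ρ g P.pi ≠ P.pi := by
      intro h
      exact h1 (hρ (by rw [map_one]; exact hINJ k L P (ρ g) P.pi hfix P.pi_ne P.ord_pi h))
    have hx0 : ((Q.pi : E) : L) ≠ 0 := hL0 _ Q.pi_ne
    have hxo : P.ord ((Q.pi : E) : L) = e := by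
      rw [← hQ' _ Q.pi_ne, Q.ord_pi, mul_one]
    obtain ⟨h3, h4⟩ := (hLO2 p k L P (ρ g) P.pi (P.b (ρ g)) hp hck hfix P.pi_ne P.ord_pi
      (hpos g hg h1) hne (by unfold Place.b; ring) _ hx0).1 (by
        rw [hxo]
        exact_mod_cast hpe)
    have h5 : ((ρ' (g : G ⧸ C) Q.pi - Q.pi : E) : L) = ρ g (Q.pi : L) - (Q.pi : L) := by
      rw [← hρ']
      rfl
    have h6 : ρ' (g : G ⧸ C) Q.pi - Q.pi ≠ 0 := by
      intro h
      apply h3
      rw [h] at h5
      exact (sub_eq_zero.1 h5.symm)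
    have h7 := hQ' _ h6
    rw [h5, h4, hxo] at h7
    unfold Place.b at h7 ⊢
    linarith
  -- the groups at `Q`
  have hI' : ((I.map (QuotientGroup.mk' C) : Subgroup (G ⧸ C)) : Set (G ⧸ C)) = ram Q ρ' 0 := by
    ext γ
    rw [SetLike.mem_coe, Subgroup.mem_map, qu2_ram0]
    constructor
    · rintro ⟨g, hg, rfl⟩
      exact hQI1 g hg
    · obtain ⟨g, rfl⟩ := QuotientGroup.mk_surjective γ
      intro h
      exact hQI2 g h
  have hW' : ((W.map (QuotientGroup.mk' C) : Subgroup (G ⧸ C)) : Set (G ⧸ C)) = ram Q ρ' 1 := by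
    ext γ
    constructor
    · rintro ⟨g, hg, rfl⟩
      have hgf := hQI1 g (hWI hg)
      refine (hRAM k E (G ⧸ C) Q ρ' _ 1 le_rfl).2 ⟨hgf, ?_⟩
      by_cases h1 : g = 1
      · left
        rw [h1, map_one, map_one]
      · right
        have h2 := hb g hg h1
        have h3 := hpos g hg h1
        by_contra hcon
        push Not at hcon
        have h4 : Q.b (ρ' (g : G ⧸ C)) ≤ 0 := by
          have h5 : Q.b (ρ' (g : G ⧸ C)) < 1 := by exact_mod_cast hcon
          omega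
        nlinarith
    · intro hγ
      obtain ⟨W2, I2, hW2, hI2, -, ⟨n2, hn2⟩, -⟩ := hWLD p k E (G ⧸ C) Q ρ' hp hck hρ'inj
      have hγp : γ ^ (p ^ n2) = 1 := by
        have h1 : γ ∈ W2 := by
          rw [← SetLike.mem_coe, hW2]
          exact hγ
        have h2 : orderOf γ ∣ p ^ n2 := by
          rw [← hn2]
          exact Subgroup.orderOf_dvd_natCard _ h1
        exact orderOf_dvd_iff_pow_eq_one.1 h2
      obtain ⟨g, rfl⟩ := QuotientGroup.mk_surjective γ
      obtain ⟨i, hi, hig⟩ := hQI2 g hγ.1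
      have him : i ^ m ∈ W := by
        have hN : (W.subgroupOf I).Normal := by
          constructor
          intro x hx y
          rw [Subgroup.mem_subgroupOf] at hx ⊢
          exact hnorm y y.2 x hx
        have hidx : (W.subgroupOf I).index = m := by
          have h1 := (W.subgroupOf I).card_mul_index
          rw [Nat.card_congr (Subgroup.subgroupOfEquivOfLe hWI).toEquiv, hIm, mul_comm] at h1
          have h2 : 0 < Nat.card W := Nat.card_pos
          exact Nat.eq_of_mul_eq_mul_right h2 h1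
        have h1 := (W.subgroupOf I).pow_index_mem ⟨i, hi⟩
        rw [hidx, Subgroup.mem_subgroupOf] at h1
        exact h1
      have hcop : IsCoprime (m : ℤ) ((p ^ n2 : ℕ) : ℤ) :=
        Nat.isCoprime_iff_coprime.2
          (Nat.Coprime.pow_right _ ((Nat.Prime.coprime_iff_not_dvd hp).2 hm).symm)
      obtain ⟨a, b, hab⟩ := hcop
      have h1 : (g : G ⧸ C) ^ m ∈ W.map (QuotientGroup.mk' C) := by
        refine Subgroup.mem_map.2 ⟨i ^ m, him, ?_⟩
        rw [map_pow, ← hig]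
        rfl
      have h2 : (g : G ⧸ C) = ((g : G ⧸ C) ^ m) ^ a := by
        calc (g : G ⧸ C) = (g : G ⧸ C) ^ (a * (m : ℤ) + b * ((p ^ n2 : ℕ) : ℤ)) := by
              rw [hab, zpow_one]
          _ = ((g : G ⧸ C) ^ m) ^ a := by
              rw [zpow_add, mul_comm a, mul_comm b, zpow_mul, zpow_mul, zpow_natCast,
                zpow_natCast, hγp, one_zpow, mul_one]
      rw [SetLike.mem_coe, h2]
      exact Subgroup.zpow_mem _ h1 a
  -- the conductor
  rcases hCON k L G P ρ W I c hρ hW hI hcon with h0 | ⟨l, hl, hcl⟩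
  · exact absurd h0 hc0
  obtain ⟨g0, hg0, hg01, hg0l⟩ := hl.mem
  have hlst : IsLst (fun γ => Q.b (ρ' γ)) (W.map (QuotientGroup.mk' C))
      (Q.b (ρ' (g0 : G ⧸ C))) := by
    constructor
    · exact ⟨(g0 : G ⧸ C), Subgroup.mem_map.2 ⟨g0, hg0, rfl⟩, hne1 g0 hg0 hg01, rfl⟩
    · intro γ hγ hγ1
      obtain ⟨g, hg, rfl⟩ := Subgroup.mem_map.1 hγ
      have hg1 : g ≠ 1 := by
        rintro rfl
        exact hγ1 (map_one _)
      have h1 := hl.le g hg hg1
      have h2 : (e : ℤ) * Q.b (ρ' (g : G ⧸ C)) ≤ e * Q.b (ρ' (g0 : G ⧸ C)) := by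
        rw [hb g hg hg1, hb g0 hg0 hg01, hg0l]
        exact h1
      exact le_of_mul_le_mul_left h2 he0
  have hfin := hCNV k E (G ⧸ C) Q ρ' (W.map (QuotientGroup.mk' C)) (I.map (QuotientGroup.mk' C))
    (Q.b (ρ' (g0 : G ⧸ C))) hρ'inj hW' hI' hlst
  have hsum : (e : ℤ) * sm (fun γ => Q.b (ρ' γ))
      {γ | γ ∈ W.map (QuotientGroup.mk' C) ∧ γ ≠ 1} =
      sm (fun g => P.b (ρ g)) {g | g ∈ W ∧ g ≠ 1} := by
    refine qu2_sm (fun g => P.b (ρ g)) (fun γ => Q.b (ρ' γ)) {g | g ∈ W ∧ g ≠ 1}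
      {γ | γ ∈ W.map (QuotientGroup.mk' C) ∧ γ ≠ 1} (fun g => (g : G ⧸ C)) (e : ℤ) ?_ ?_ ?_ ?_
    · rintro g ⟨hg, hg1⟩
      exact ⟨Subgroup.mem_map.2 ⟨g, hg, rfl⟩, hne1 g hg hg1⟩
    · rintro g ⟨hg, -⟩ g' ⟨hg', -⟩ h
      have h1 : g⁻¹ * g' ∈ C := QuotientGroup.eq.1 h
      exact inv_mul_eq_one.1 (hCW _ (W.mul_mem (W.inv_mem hg) hg') h1)
    · rintro γ ⟨hγ, hγ1⟩
      obtain ⟨g, hg, hgγ⟩ := Subgroup.mem_map.1 hγ
      refine ⟨g, ⟨hg, ?_⟩, hgγ⟩
      rintro rfl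
      exact hγ1 (hgγ.symm.trans (map_one _))
    · rintro g ⟨hg, hg1⟩
      exact hb g hg hg1
  have hWpos : (Nat.card W : ℚ) ≠ 0 := by
    have : 0 < Nat.card W := Nat.card_pos
    exact_mod_cast this.ne'
  have hIpos : (Nat.card I : ℚ) ≠ 0 := by
    have : 0 < Nat.card I := Nat.card_pos
    exact_mod_cast this.ne'
  have hWpos' : (Nat.card (W.map (QuotientGroup.mk' C)) : ℚ) ≠ 0 := by
    have : 0 < Nat.card (W.map (QuotientGroup.mk' C)) := Nat.card_pos
    exact_mod_cast this.ne'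
  have hIpos' : (Nat.card (I.map (QuotientGroup.mk' C)) : ℚ) ≠ 0 := by
    have : 0 < Nat.card (I.map (QuotientGroup.mk' C)) := Nat.card_pos
    exact_mod_cast this.ne'
  have hcI : (Nat.card I : ℚ) = e * Nat.card (I.map (QuotientGroup.mk' C)) := by
    rw [heJ]
    exact_mod_cast qu2_card C I
  have hl' : (l : ℚ) = e * (Q.b (ρ' (g0 : G ⧸ C)) : ℚ) := by
    have h1 := hb g0 hg0 hg01
    rw [hg0l] at h1
    rw [← h1]
    push_cast
    ring
  have hs' : ((sm (fun g => P.b (ρ g)) {g | g ∈ W ∧ g ≠ 1} : ℤ) : ℚ) =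
      e * (sm (fun γ => Q.b (ρ' γ)) {γ | γ ∈ W.map (QuotientGroup.mk' C) ∧ γ ≠ 1} : ℤ) := by
    rw [← hsum]
    push_cast
    ring
  have heq : c = (Nat.card (W.map (QuotientGroup.mk' C)) : ℚ) *
      U (fun γ => Q.b (ρ' γ)) (W.map (QuotientGroup.mk' C)) (Q.b (ρ' (g0 : G ⧸ C))) /
        Nat.card (I.map (QuotientGroup.mk' C)) := by
    have he' : (e : ℚ) ≠ 0 := by
      have : 0 < e := he1
      exact_mod_cast this.ne'
    have h1 : (Nat.card W : ℚ) * U (fun g => P.b (ρ g)) W l = l +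
        ((sm (fun g => P.b (ρ g)) {g | g ∈ W ∧ g ≠ 1} : ℤ) : ℚ) := by
      unfold U
      rw [mul_div_cancel₀ _ hWpos]
    have h2 : (Nat.card (W.map (QuotientGroup.mk' C)) : ℚ) *
        U (fun γ => Q.b (ρ' γ)) (W.map (QuotientGroup.mk' C)) (Q.b (ρ' (g0 : G ⧸ C))) =
        (Q.b (ρ' (g0 : G ⧸ C)) : ℚ) +
        ((sm (fun γ => Q.b (ρ' γ)) {γ | γ ∈ W.map (QuotientGroup.mk' C) ∧ γ ≠ 1} : ℤ) : ℚ) := by
      unfold U
      rw [mul_div_cancel₀ _ hWpos']
    rw [h2, eq_div_iff hIpos']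
    rw [h1, hcI, hl', hs'] at hcl
    have h3 : (e : ℚ) * (c * Nat.card (I.map (QuotientGroup.mk' C))) =
        e * ((Q.b (ρ' (g0 : G ⧸ C)) : ℚ) +
        ((sm (fun γ => Q.b (ρ' γ)) {γ | γ ∈ W.map (QuotientGroup.mk' C) ∧ γ ≠ 1} : ℤ) : ℚ)) := by
      linear_combination hcl
    exact mul_left_cancel₀ he' h3
  rw [heq]
  exact hfin

end Pool.CND
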